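import Pool.Agent.Helper54_BED.Stmt

/-!
# BED: module NASH
-/

set_option autoImplicit false
set_option linter.unusedSectionVars false

open scoped BigOperators

noncomputable section

namespace Pool.Agent.BED.H32

open Pool.Agent.BED

variable {d M : ℕ} [NeZero M]

/-- the `l²` norm -/
def nrm (f : Tor d M → ℝ) : ℝ := ‖(WithLp.toLp 2 f : EuclideanSpace ℝ (Tor d M))‖

theorem nrm_sq (f : Tor d M → ℝ) : nrm f ^ 2 = ∑ x, f x ^ 2 := by
  unfold nrm
  rw [EuclideanSpace.norm_sq_eq]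
  simp

theorem nrm_nonneg (f : Tor d M → ℝ) : 0 ≤ nrm f := norm_nonneg _

theorem nrm_add (f g : Tor d M → ℝ) : nrm (f + g) ≤ nrm f + nrm g := by
  unfold nrm
  exact norm_add_le (WithLp.toLp 2 f : EuclideanSpace ℝ (Tor d M)) (WithLp.toLp 2 g)

theorem nrm_shift (f : Tor d M → ℝ) (s : Tor d M) : nrm (fun x => f (x + s)) = nrm f := by
  have h : nrm (fun x => f (x + s)) ^ 2 = nrm f ^ 2 := by
    rw [nrm_sq, nrm_sq]
    exact Equiv.sum_comp (Equiv.addRight s) (fun x => f x ^ 2)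
  exact (pow_left_inj₀ (nrm_nonneg _) (nrm_nonneg _) two_ne_zero).1 h

/-- the distance from the translate -/
def dst (u : Tor d M → ℝ) (s : Tor d M) : ℝ := nrm (fun x => u (x + s) - u x)

theorem dst_zero (u : Tor d M → ℝ) : dst u 0 = 0 := by
  have : dst u 0 ^ 2 = 0 := by
    unfold dst
    rw [nrm_sq]
    simp
  exact pow_eq_zero_iff two_ne_zero |>.1 this

theorem dst_add (u : Tor d M → ℝ) (s t : Tor d M) : dst u (s + t) ≤ dst u s + dst u t := by
  have h : (fun x => u (x + (s + t)) - u x) =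
      (fun x => (fun y => u (y + t) - u y) (x + s)) + (fun x => u (x + s) - u x) := by
    funext x
    simp only [Pi.add_apply]
    rw [add_assoc]
    ring
  unfold dst
  rw [h]
  refine (nrm_add _ _).trans ?_
  rw [nrm_shift (fun y => u (y + t) - u y) s]
  linarith

theorem dst_nsmul (u : Tor d M → ℝ) (n : ℕ) (s : Tor d M) : dst u (n • s) ≤ n * dst u s := by
  induction n with
  | zero => simp [dst_zero]
  | succ n ih =>
      rw [succ_nsmul]
      refine (dst_add u _ _).trans ?_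
      push_cast
      linarith

/-- the translation vector with coordinates `s` -/
def vec {l : ℕ} (s : Fin d → Fin l) : Tor d M := fun i => ((s i : ℕ) : ZMod M)

theorem vec_eq {l : ℕ} (s : Fin d → Fin l) :
    (vec s : Tor d M) = ∑ i, (s i : ℕ) • (ev i : Tor d M) := by
  funext j
  rw [Finset.sum_apply]
  simp only [Pi.smul_apply, ev, Pi.single_apply, nsmul_eq_mul, mul_ite, mul_one, mul_zero]
  rw [Finset.sum_ite_eq]
  simp [vec]

theorem vec_injective {l : ℕ} (hl : l ≤ M) :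
    Function.Injective (vec : (Fin d → Fin l) → Tor d M) := by
  intro s t h
  funext i
  have h1 := congrFun h i
  unfold vec at h1
  have h2 := (ZMod.natCast_eq_natCast_iff' _ _ _).1 h1
  rw [Nat.mod_eq_of_lt ((s i).2.trans_le hl), Nat.mod_eq_of_lt ((t i).2.trans_le hl)] at h2
  exact Fin.ext h2

theorem dst_sq_sum (u : Tor d M → ℝ) : ∑ i : Fin d, dst u (ev i) ^ 2 = energy u := by
  unfold energy
  rw [Finset.sum_comm]
  refine Finset.sum_congr rfl fun i _ => ?_
  unfold dst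
  rw [nrm_sq]

theorem dst_vec {l : ℕ} (u : Tor d M → ℝ) (s : Fin d → Fin l) :
    dst u (vec s) ^ 2 ≤ d * (l : ℝ) ^ 2 * energy u := by
  have h1 : dst u (vec s) ≤ ∑ i : Fin d, ((s i : ℕ) : ℝ) * dst u (ev i) := by
    rw [vec_eq]
    refine (Finset.le_sum_of_subadditive (dst u) (dst_zero u).le (dst_add u) _ _).trans ?_
    exact Finset.sum_le_sum fun i _ => dst_nsmul u _ _
  have h0 : 0 ≤ dst u (vec s) := nrm_nonneg _
  calc dst u (vec s) ^ 2 ≤ (∑ i : Fin d, ((s i : ℕ) : ℝ) * dst u (ev i)) ^ 2 :=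
        pow_le_pow_left₀ h0 h1 2
    _ ≤ (∑ i : Fin d, ((s i : ℕ) : ℝ) ^ 2) * ∑ i : Fin d, dst u (ev i) ^ 2 :=
        Finset.sum_mul_sq_le_sq_mul_sq _ _ _
    _ ≤ (∑ _i : Fin d, (l : ℝ) ^ 2) * ∑ i : Fin d, dst u (ev i) ^ 2 := by
        refine mul_le_mul_of_nonneg_right ?_ (Finset.sum_nonneg fun i _ => sq_nonneg _)
        refine Finset.sum_le_sum fun i _ => ?_
        have : ((s i : ℕ) : ℝ) ≤ l := by exact_mod_cast (s i).2.le
        exact pow_le_pow_left₀ (by positivity) this 2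
    _ = d * (l : ℝ) ^ 2 * energy u := by
        rw [dst_sq_sum]
        simp

theorem one_shift (u : Tor d M → ℝ) (s : Tor d M) :
    ∑ x, u x ^ 2 = ∑ x, u x * u (x + s) + (1 / 2) * dst u s ^ 2 := by
  unfold dst
  rw [nrm_sq]
  have h : ∑ x, u (x + s) ^ 2 = ∑ x, u x ^ 2 :=
    Equiv.sum_comp (Equiv.addRight s) (fun x => u x ^ 2)
  have h2 : ∑ x, (u (x + s) - u x) ^ 2 =
      ∑ x, u (x + s) ^ 2 + ∑ x, u x ^ 2 - 2 * ∑ x, u x * u (x + s) := by
    rw [Finset.mul_sum, ← Finset.sum_add_distrib, ← Finset.sum_sub_distrib]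
    refine Finset.sum_congr rfl fun x _ => ?_
    ring
  rw [h2, h]
  ring

/-- Module NASH. -/
theorem nash : NashStmt := by
  intro d M _ u l hl1 hlM
  have hcard : (Fintype.card (Fin d → Fin l) : ℝ) = (l : ℝ) ^ d := by
    simp
  have hl0 : (0 : ℝ) < (l : ℝ) ^ d := by
    have : 0 < l := hl1
    positivity
  have hsum : (l : ℝ) ^ d * ∑ x, u x ^ 2 =
      ∑ s : Fin d → Fin l, (∑ x, u x * u (x + vec s) + (1 / 2) * dst u (vec s) ^ 2) := by
    have : ∀ s ∈ (Finset.univ : Finset (Fin d → Fin l)),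
        ∑ x, u x * u (x + vec s) + (1 / 2) * dst u (vec s) ^ 2 = ∑ x, u x ^ 2 :=
      fun s _ => (one_shift u _).symm
    rw [Finset.sum_congr rfl this, Finset.sum_const, Finset.card_univ, nsmul_eq_mul, hcard]
  have h1 : ∑ s : Fin d → Fin l, ∑ x, u x * u (x + vec s) ≤ (∑ x, |u x|) ^ 2 := by
    rw [Finset.sum_comm, sq, Finset.sum_mul]
    refine Finset.sum_le_sum fun x _ => ?_
    rw [← Finset.mul_sum]
    have h2 : |∑ s : Fin d → Fin l, u (x + vec s)| ≤ ∑ y, |u y| := by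
      refine (Finset.abs_sum_le_sum_abs _ _).trans ?_
      have hinj : Function.Injective (fun s : Fin d → Fin l => x + (vec s : Tor d M)) :=
        (add_right_injective x).comp (vec_injective hlM)
      have e := Finset.sum_map Finset.univ (⟨_, hinj⟩ : (Fin d → Fin l) ↪ Tor d M)
        (fun y => |u y|)
      simp only [Function.Embedding.coeFn_mk] at e
      rw [← e]
      exact Finset.sum_le_sum_of_subset_of_nonneg (Finset.subset_univ _)
        fun y _ _ => abs_nonneg _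
    calc u x * ∑ s : Fin d → Fin l, u (x + vec s) ≤ |u x * ∑ s : Fin d → Fin l, u (x + vec s)| :=
          le_abs_self _
      _ = |u x| * |∑ s : Fin d → Fin l, u (x + vec s)| := abs_mul _ _
      _ ≤ |u x| * ∑ y, |u y| := mul_le_mul_of_nonneg_left h2 (abs_nonneg _)
  have h3 : ∑ s : Fin d → Fin l, (1 / 2) * dst u (vec s) ^ 2 ≤
      (l : ℝ) ^ d * ((d * (l : ℝ) ^ 2 / 2) * energy u) := by
    have : ∀ s ∈ (Finset.univ : Finset (Fin d → Fin l)),
        (1 / 2) * dst u (vec s) ^ 2 ≤ (d * (l : ℝ) ^ 2 / 2) * energy u := by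
      intro s _
      have := dst_vec u s
      linarith
    refine (Finset.sum_le_sum this).trans (le_of_eq ?_)
    rw [Finset.sum_const, Finset.card_univ, nsmul_eq_mul, hcard]
  rw [Finset.sum_add_distrib] at hsum
  have h4 : (l : ℝ) ^ d * ∑ x, u x ^ 2 ≤
      (l : ℝ) ^ d * ((1 / (l : ℝ) ^ d) * (∑ x, |u x|) ^ 2 + (d * (l : ℝ) ^ 2 / 2) * energy u) := by
    rw [mul_add, ← mul_assoc ((l : ℝ) ^ d) (1 / (l : ℝ) ^ d), mul_one_div_cancel hl0.ne', one_mul,
      hsum]
    exact add_le_add h1 h3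
  exact le_of_mul_le_mul_left h4 hl0

end Pool.Agent.BED.H32
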