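import Pool.Agent.Helper54_BED.Stmt

/-!
# BED: module SEQ
-/

set_option autoImplicit false

open scoped BigOperators

noncomputable section

namespace Pool.Agent.BED.H32

open Pool.Agent.BED

theorem rpow_half {x : ℝ} (hx : 0 < x) (d : ℕ) :
    x ^ (-(d : ℝ) / 2) = ((Real.sqrt x) ^ d)⁻¹ := by
  rw [Real.sqrt_eq_rpow, ← Real.rpow_natCast, ← Real.rpow_mul hx.le, ← Real.rpow_neg hx.le]
  congr 1
  ring

theorem bern {m : ℝ} (hm : 0 < m) (d : ℕ) :
    ((Real.sqrt m) ^ d)⁻¹ * (1 - d / (2 * m)) ≤ ((Real.sqrt (m + 1)) ^ d)⁻¹ := by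
  rw [← rpow_half hm, ← rpow_half (by linarith : 0 < m + 1)]
  have h1 : (m + 1) ^ (-(d : ℝ) / 2) = m ^ (-(d : ℝ) / 2) * (1 + 1 / m) ^ (-(d : ℝ) / 2) := by
    rw [← Real.mul_rpow hm.le (by positivity)]
    congr 1
    field_simp
  rw [h1]
  refine mul_le_mul_of_nonneg_left ?_ (by positivity)
  have h2 : 0 < 1 + 1 / m := by positivity
  rw [Real.rpow_def_of_pos h2]
  have h3 : Real.log (1 + 1 / m) ≤ 1 / m := by
    have := Real.log_le_sub_one_of_pos h2
    linarith
  have h4 := Real.add_one_le_exp (Real.log (1 + 1 / m) * (-(d : ℝ) / 2))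
  have h5 : (d : ℝ) / (2 * m) = (1 / m) * (d / 2) := by field_simp
  have h6 : Real.log (1 + 1 / m) * ((d : ℝ) / 2) ≤ (1 / m) * (d / 2) :=
    mul_le_mul_of_nonneg_right h3 (by positivity)
  have h7 : Real.log (1 + 1 / m) * (-(d : ℝ) / 2) = - (Real.log (1 + 1 / m) * ((d : ℝ) / 2)) := by
    ring
  rw [h7] at h4 ⊢
  linarith

/-- Module SEQ. -/
theorem seq : SeqStmt := by
  intro d M hd φ h0 h00 hmono hrec n
  have hd1 : (1 : ℝ) ≤ d := by exact_mod_cast hd
  have hd3 : (1 : ℝ) ≤ (d : ℝ) ^ 3 := one_le_pow₀ hd1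
  have hle1 : ∀ n, φ n ≤ 1 := by
    intro n
    induction n with
    | zero => exact h00
    | succ n ih => exact (hmono n).trans ih
  set c : ℝ := Real.sqrt (36 * (d : ℝ) ^ 3) with hc
  have hc2 : c ^ 2 = 36 * (d : ℝ) ^ 3 := Real.sq_sqrt (by positivity)
  have hc1 : 1 ≤ c := by
    rw [hc]
    exact Real.one_le_sqrt.2 (by linarith)
  have hcK : c ≤ 36 * (d : ℝ) ^ 3 := by
    rw [← hc2]; nlinarith
  have hcd : c ^ d ≤ (36 * (d : ℝ) ^ 3) ^ d := pow_le_pow_left₀ (by linarith) hcK d
  have hcd0 : 0 < c ^ d := by positivity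
  have hK : KH d = 12 * (36 * (d : ℝ) ^ 3) ^ d := rfl
  induction n with
  | zero =>
      intro _
      rw [rpow_half (by norm_num)]
      simp only [Nat.cast_zero, zero_add, Real.sqrt_one, one_pow, inv_one, mul_one]
      rw [hK]
      have : (1 : ℝ) ≤ c ^ d := one_le_pow₀ hc1
      linarith
  | succ n ih =>
      intro hM
      have hM' : n + 1 ≤ M ^ 2 := by omega
      have ih := ih hM'
      have hm0 : (0 : ℝ) < (n : ℝ) + 1 := by positivity
      rw [rpow_half hm0] at ih
      have hcast : (((n + 1 : ℕ) : ℝ) + 1) = ((n : ℝ) + 1) + 1 := by push_cast; ring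
      rw [hcast, rpow_half (by positivity)]
      set m : ℝ := (n : ℝ) + 1 with hm
      set r : ℝ := Real.sqrt m with hr
      have hr2 : r ^ 2 = m := Real.sq_sqrt hm0.le
      have hr0 : 0 < r := Real.sqrt_pos.2 hm0
      by_cases hsmall : m < 36 * (d : ℝ) ^ 3
      · -- small `m`
        have h1 : Real.sqrt (m + 1) ≤ 2 * c := by
          rw [show (2 : ℝ) * c = Real.sqrt ((2 * c) ^ 2) from (Real.sqrt_sq (by linarith)).symm]
          refine Real.sqrt_le_sqrt ?_
          rw [mul_pow, hc2]
          linarith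
        have h2c : 2 * c ≤ 36 * (d : ℝ) ^ 3 := by
          rw [← hc2]
          have : (2 : ℝ) ≤ c := by
            rw [hc]
            refine Real.le_sqrt_of_sq_le ?_
            linarith
          nlinarith
        have h2 : (Real.sqrt (m + 1)) ^ d ≤ (36 * (d : ℝ) ^ 3) ^ d :=
          pow_le_pow_left₀ (Real.sqrt_nonneg _) (h1.trans h2c) d
        have h3 : 0 < (Real.sqrt (m + 1)) ^ d := by positivity
        refine (hle1 _).trans ?_
        rw [hK, ← div_eq_mul_inv, le_div_iff₀ h3]
        linarith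
      · -- large `m`
        push Not at hsmall
        have hrc : c ≤ r := by
          rw [hc, hr]
          exact Real.sqrt_le_sqrt hsmall
        set x : ℝ := 2 * r / c with hx
        have hx2 : 2 ≤ x := by
          rw [hx, le_div_iff₀ (by linarith)]
          linarith
        set l : ℕ := ⌊x⌋₊ with hl
        have hlx : (l : ℝ) ≤ x := Nat.floor_le (by linarith)
        have hxl : x / 2 ≤ l := by
          have := Nat.lt_floor_add_one x
          rw [← hl] at this
          linarith
        have hl1 : 1 ≤ l := by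
          have : (1 : ℝ) ≤ l := by linarith
          exact_mod_cast this
        have hl1r : (1 : ℝ) ≤ l := by exact_mod_cast hl1
        have hlM : l ≤ M := by
          have h1 : x ≤ r := by
            rw [hx, div_le_iff₀ (by linarith)]
            have : (2 : ℝ) ≤ c := by
              rw [hc]
              refine Real.le_sqrt_of_sq_le ?_
              linarith
            nlinarith
          have h2 : r ≤ M := by
            rw [hr]
            rw [show (M : ℝ) = Real.sqrt ((M : ℝ) ^ 2) from (Real.sqrt_sq (by positivity)).symm]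
            refine Real.sqrt_le_sqrt ?_
            rw [hm]
            exact_mod_cast hM'
          exact_mod_cast hlx.trans (h1.trans h2)
        have hstep := hrec n l hl1 hlM
        set s : ℝ := 1 / (9 * (d : ℝ) ^ 2 * (l : ℝ) ^ 2) with hs
        have hs1 : s ≤ 1 := by
          rw [hs, div_le_one (by positivity)]
          have : (1 : ℝ) ≤ (d : ℝ) ^ 2 := one_le_pow₀ hd1
          have : (1 : ℝ) ≤ (l : ℝ) ^ 2 := one_le_pow₀ hl1r
          nlinarith
        have hsm : (d : ℝ) / m ≤ s := by
          rw [hs, div_le_div_iff₀ hm0 (by positivity), one_mul]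
          have h1 : (l : ℝ) ^ 2 ≤ x ^ 2 := by
            have := pow_le_pow_left₀ (by positivity) hlx 2
            exact this
          have h2 : x ^ 2 = 4 * m / (36 * (d : ℝ) ^ 3) := by
            rw [hx, div_pow, mul_pow, hr2, hc2]; ring
          have h3 : (d : ℝ) * (9 * (d : ℝ) ^ 2 * x ^ 2) = m := by
            rw [h2]; field_simp; ring
          calc (d : ℝ) * (9 * (d : ℝ) ^ 2 * (l : ℝ) ^ 2) ≤ (d : ℝ) * (9 * (d : ℝ) ^ 2 * x ^ 2) := by
                gcongr
            _ = m := h3
        have hs0 : 0 ≤ s := by rw [hs]; positivity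
        -- the second term
        have hld : 6 / (l : ℝ) ^ d ≤ KH d / 2 * (r ^ d)⁻¹ := by
          have h1 : (r / c) ^ d ≤ (l : ℝ) ^ d := by
            refine pow_le_pow_left₀ (by positivity) ?_ d
            have : x / 2 = r / c := by rw [hx]; ring
            linarith
          have h2 : 0 < (r / c) ^ d := by positivity
          calc 6 / (l : ℝ) ^ d ≤ 6 / (r / c) ^ d := by gcongr
            _ = 6 * c ^ d * (r ^ d)⁻¹ := by
                rw [div_pow]; field_simp
            _ ≤ KH d / 2 * (r ^ d)⁻¹ := by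
                refine mul_le_mul_of_nonneg_right ?_ (by positivity)
                rw [hK]
                linarith
        have hrd : 0 < (r ^ d)⁻¹ := by positivity
        have hKr : 0 ≤ KH d * (r ^ d)⁻¹ := (h0 n).trans ih
        have h1 : φ (n + 1) ≤ KH d * (r ^ d)⁻¹ * (1 - s / 2) := by
          have e1 : (1 - s) * φ n ≤ (1 - s) * (KH d * (r ^ d)⁻¹) :=
            mul_le_mul_of_nonneg_left ih (by linarith)
          have e2 : s * (6 / (l : ℝ) ^ d) ≤ s * (KH d / 2 * (r ^ d)⁻¹) :=
            mul_le_mul_of_nonneg_left hld hs0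
          calc φ (n + 1) ≤ φ n - s * (φ n - 6 / (l : ℝ) ^ d) := hstep
            _ = (1 - s) * φ n + s * (6 / (l : ℝ) ^ d) := by ring
            _ ≤ (1 - s) * (KH d * (r ^ d)⁻¹) + s * (KH d / 2 * (r ^ d)⁻¹) := add_le_add e1 e2
            _ = KH d * (r ^ d)⁻¹ * (1 - s / 2) := by ring
        have h2 : KH d * (r ^ d)⁻¹ * (1 - s / 2) ≤ KH d * (r ^ d)⁻¹ * (1 - d / (2 * m)) := by
          refine mul_le_mul_of_nonneg_left ?_ hKr
          have : (d : ℝ) / (2 * m) = d / m / 2 := by field_simp
          rw [this]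
          linarith
        have h3 := bern hm0 d
        rw [← hr] at h3
        have hK0 : 0 ≤ KH d := by rw [hK]; positivity
        calc φ (n + 1) ≤ KH d * (r ^ d)⁻¹ * (1 - s / 2) := h1
          _ ≤ KH d * (r ^ d)⁻¹ * (1 - d / (2 * m)) := h2
          _ = KH d * ((r ^ d)⁻¹ * (1 - d / (2 * m))) := by ring
          _ ≤ KH d * ((Real.sqrt (m + 1)) ^ d)⁻¹ := mul_le_mul_of_nonneg_left h3 hK0

end Pool.Agent.BED.H32
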