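import Pool.Agent.Helper54_BED.Stmt

/-!
# BED: module HEAT
-/

set_option autoImplicit false
set_option linter.unusedSectionVars false

open scoped BigOperators

noncomputable section

namespace Pool.Agent.BED.H32

open Matrix Pool.Agent.BED

variable {d M : ℕ} [NeZero M]

theorem sum_shift (F : Tor d M → ℝ) (e : Tor d M) : ∑ x, F (x + e) = ∑ x, F x :=
  Equiv.sum_comp (Equiv.addRight e) F

theorem sum_shift_sub (F : Tor d M → ℝ) (e : Tor d M) : ∑ x, F (x - e) = ∑ x, F x := by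
  have := sum_shift F (-e)
  simpa [sub_eq_add_neg] using this

theorem TM_mulVec (z : ℝ) (V f : Tor d M → ℝ) (x : Tor d M) :
    (TM z V *ᵥ f) x = f x - 1 / (8 * d) * (AM z V *ᵥ f) x := by
  unfold TM
  rw [Matrix.sub_mulVec, Matrix.one_mulVec, Matrix.smul_mulVec, Pi.sub_apply, Pi.smul_apply,
    smul_eq_mul]

theorem TM_symm (z : ℝ) (V : Tor d M → ℝ) (x y : Tor d M) : TM z V x y = TM z V y x := by
  unfold TM
  rw [Matrix.sub_apply, Matrix.sub_apply, Matrix.smul_apply, Matrix.smul_apply, AM_symm z V x y]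
  congr 1
  by_cases h : x = y
  · rw [h]
  · rw [Matrix.one_apply_ne h, Matrix.one_apply_ne (Ne.symm h)]

theorem TM_nonneg (hd : 1 ≤ d) {z : ℝ} {V : Tor d M → ℝ} (hz : z ≤ 2 * d + 1)
    (hV : ∀ x, -1 ≤ V x) (x y : Tor d M) : 0 ≤ TM z V x y := by
  have hd1 : (1 : ℝ) ≤ d := by exact_mod_cast hd
  have hadj : 0 ≤ adj d M x y := adj_nonneg x y
  have hc : 0 ≤ 1 / (8 * (d : ℝ)) := by positivity
  unfold TM AM
  rw [Matrix.sub_apply, Matrix.smul_apply, Matrix.sub_apply, smul_eq_mul]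
  by_cases h : x = y
  · subst h
    rw [Matrix.one_apply_eq, Matrix.diagonal_apply_eq]
    have h1 : 1 / (8 * (d : ℝ)) * (z - V x) ≤ 1 := by
      rw [one_div_mul_eq_div, div_le_one (by positivity)]
      have := hV x
      linarith
    have h2 := mul_nonneg hc hadj
    rw [mul_sub]
    linarith
  · rw [Matrix.one_apply_ne h, Matrix.diagonal_apply_ne _ h]
    have h2 := mul_nonneg hc hadj
    rw [mul_sub]
    linarith

/-- the upper bound for the quadratic form -/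
theorem AM_form_le (hd : 1 ≤ d) {z : ℝ} {V : Tor d M → ℝ} (hz : z ≤ 2 * d + 1)
    (hV : ∀ x, -1 ≤ V x) (f : Tor d M → ℝ) :
    ∑ x, f x * (AM z V *ᵥ f) x ≤ 8 * d * ∑ x, f x ^ 2 := by
  have hd1 : (1 : ℝ) ≤ d := by exact_mod_cast hd
  have h0 : 0 ≤ ∑ x, f x ^ 2 := Finset.sum_nonneg fun x _ => sq_nonneg _
  have h1 : ∑ x, f x * (AM z V *ᵥ f) x =
      ∑ x, (z - V x) * f x ^ 2 - ∑ x, ∑ i : Fin d, (f x * f (x + ev i) + f x * f (x - ev i)) := by
    rw [← Finset.sum_sub_distrib]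
    refine Finset.sum_congr rfl fun x _ => ?_
    rw [AM_mulVec, mul_sub, Finset.mul_sum]
    congr 1
    · ring
    · refine Finset.sum_congr rfl fun i _ => ?_
      ring
  have h2 : ∑ x, (z - V x) * f x ^ 2 ≤ (2 * d + 2) * ∑ x, f x ^ 2 := by
    rw [Finset.mul_sum]
    refine Finset.sum_le_sum fun x _ => ?_
    refine mul_le_mul_of_nonneg_right ?_ (sq_nonneg _)
    have := hV x
    linarith
  have h3 : - ∑ x, ∑ i : Fin d, (f x * f (x + ev i) + f x * f (x - ev i)) ≤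
      2 * d * ∑ x, f x ^ 2 := by
    rw [← Finset.sum_neg_distrib]
    have e1 : ∀ x ∈ (Finset.univ : Finset (Tor d M)),
        - ∑ i : Fin d, (f x * f (x + ev i) + f x * f (x - ev i)) ≤
        ∑ i : Fin d, (f x ^ 2 + (f (x + ev i) ^ 2 + f (x - ev i) ^ 2) / 2) := by
      intro x _
      rw [← Finset.sum_neg_distrib]
      refine Finset.sum_le_sum fun i _ => ?_
      nlinarith [sq_nonneg (f x + f (x + ev i)), sq_nonneg (f x + f (x - ev i))]
    refine (Finset.sum_le_sum e1).trans (le_of_eq ?_)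
    rw [Finset.sum_comm]
    have e2 : ∀ i ∈ (Finset.univ : Finset (Fin d)),
        ∑ x : Tor d M, (f x ^ 2 + (f (x + ev i) ^ 2 + f (x - ev i) ^ 2) / 2) =
          2 * ∑ x, f x ^ 2 := by
      intro i _
      rw [Finset.sum_add_distrib, ← Finset.sum_div, Finset.sum_add_distrib,
        sum_shift (fun x => f x ^ 2), sum_shift_sub (fun x => f x ^ 2)]
      ring
    rw [Finset.sum_congr rfl e2]
    simp
    ring
  rw [h1]
  have h4 : (2 * (d : ℝ) + 2) * ∑ x, f x ^ 2 + 2 * d * ∑ x, f x ^ 2 ≤ 8 * d * ∑ x, f x ^ 2 := by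
    nlinarith
  linarith

theorem TM_form (z : ℝ) (V f : Tor d M → ℝ) :
    ∑ x, f x * (TM z V *ᵥ f) x =
      ∑ x, f x ^ 2 - 1 / (8 * d) * ∑ x, f x * (AM z V *ᵥ f) x := by
  rw [Finset.mul_sum, ← Finset.sum_sub_distrib]
  refine Finset.sum_congr rfl fun x _ => ?_
  rw [TM_mulVec]
  ring

theorem TM_form_nonneg (hd : 1 ≤ d) {z : ℝ} {V : Tor d M → ℝ} (hz : z ≤ 2 * d + 1)
    (hV : ∀ x, -1 ≤ V x) (f : Tor d M → ℝ) : 0 ≤ ∑ x, f x * (TM z V *ᵥ f) x := by
  have hd1 : (1 : ℝ) ≤ d := by exact_mod_cast hd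
  rw [TM_form]
  have h := AM_form_le hd hz hV f
  have h2 : 1 / (8 * (d : ℝ)) * ∑ x, f x * (AM z V *ᵥ f) x ≤
      1 / (8 * (d : ℝ)) * (8 * d * ∑ x, f x ^ 2) :=
    mul_le_mul_of_nonneg_left h (by positivity)
  have h3 : 1 / (8 * (d : ℝ)) * (8 * d * ∑ x, f x ^ 2) = ∑ x, f x ^ 2 := by
    field_simp
  linarith

theorem TM_form_le (hd : 1 ≤ d) {z : ℝ} {V : Tor d M → ℝ} (hA : (AM z V).PosDef)
    (f : Tor d M → ℝ) : ∑ x, f x * (TM z V *ᵥ f) x ≤ ∑ x, f x ^ 2 := by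
  have hd1 : (1 : ℝ) ≤ d := by exact_mod_cast hd
  rw [TM_form]
  have h := nonneg_of_posDef hA f
  have : 0 ≤ 1 / (8 * (d : ℝ)) * ∑ x, f x * (AM z V *ᵥ f) x := mul_nonneg (by positivity) h
  linarith

/-- `T² ≤ T` -/
theorem TM_sq_le (hd : 1 ≤ d) {z : ℝ} {V : Tor d M → ℝ} (hz : z ≤ 2 * d + 1)
    (hV : ∀ x, -1 ≤ V x) (hA : (AM z V).PosDef) (f : Tor d M → ℝ) :
    ∑ x, (TM z V *ᵥ f) x ^ 2 ≤ ∑ x, f x * (TM z V *ᵥ f) x := by
  set T := TM z V with hT
  set g := T *ᵥ f with hg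
  have h1 := TM_form_le hd hA g
  have h2 := TM_form_nonneg hd hz hV (f - g)
  rw [← hT] at h1 h2
  -- `⟨f, T g⟩ = ⟨g, g⟩`
  have h3 : ∑ x, f x * (T *ᵥ g) x = ∑ x, g x ^ 2 := by
    rw [sum_mul_mulVec_comm (TM_symm z V) f g, ← hT, ← hg]
    exact Finset.sum_congr rfl fun x _ => (sq (g x)).symm
  have h4 : ∑ x, g x * (T *ᵥ f) x = ∑ x, g x ^ 2 := by
    rw [← hg]
    exact Finset.sum_congr rfl fun x _ => (sq (g x)).symm
  have h5 : ∑ x, (f - g) x * (T *ᵥ (f - g)) x =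
      ∑ x, f x * g x - ∑ x, f x * (T *ᵥ g) x - ∑ x, g x * (T *ᵥ f) x + ∑ x, g x * (T *ᵥ g) x := by
    rw [← Finset.sum_sub_distrib, ← Finset.sum_sub_distrib, ← Finset.sum_add_distrib]
    refine Finset.sum_congr rfl fun x _ => ?_
    rw [Matrix.mulVec_sub, Pi.sub_apply, Pi.sub_apply, ← hg]
    ring
  rw [h5, h3, h4] at h2
  linarith

/-- the lower bound for the quadratic form -/
theorem AM_form_ge {z : ℝ} {V : Tor d M → ℝ} (hA : (AM z V).PosDef) {b : ℝ}
    (hD : ∀ x, DD z V x ≤ b) (f : Tor d M → ℝ) :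
    1 / b * ∑ x, f x ^ 2 ≤ ∑ x, f x * (AM z V *ᵥ f) x := by
  set g := DD z V with hg
  have hg0 : ∀ x, 0 < g x := DD_pos hA
  have h := AM_doob z V g (fun x => f x / g x)
  have e : (fun y => g y * (f y / g y)) = f := by
    funext y; rw [mul_div_cancel₀ _ (hg0 y).ne']
  have e' : ∀ y, g y * (f y / g y) = f y := fun y => congrFun e y
  simp only [e'] at h
  rw [h, hg, AM_DD hA, ← hg]
  have h1 : 0 ≤ ∑ x, ∑ i : Fin d, g x * g (x + ev i) *
      (f (x + ev i) / g (x + ev i) - f x / g x) ^ 2 := by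
    refine Finset.sum_nonneg fun x _ => Finset.sum_nonneg fun i _ => ?_
    have := (hg0 x).le
    have := (hg0 (x + ev i)).le
    positivity
  have h2 : 1 / b * ∑ x, f x ^ 2 ≤ ∑ x, g x * (1 : Tor d M → ℝ) x * (f x / g x) ^ 2 := by
    rw [Finset.mul_sum]
    refine Finset.sum_le_sum fun x _ => ?_
    rw [Pi.one_apply, mul_one]
    have hx := hg0 x
    have e3 : g x * (f x / g x) ^ 2 = 1 / g x * f x ^ 2 := by
      field_simp
    rw [e3]
    refine mul_le_mul_of_nonneg_right ?_ (sq_nonneg _)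
    exact one_div_le_one_div_of_le hx (hD x)
  linarith

theorem TM_contr (hd : 1 ≤ d) {z : ℝ} {V : Tor d M → ℝ} (hz : z ≤ 2 * d + 1)
    (hV : ∀ x, -1 ≤ V x) (hA : (AM z V).PosDef) {a : ℝ} (ha : 0 < a)
    (hD : ∀ x, DD z V x ≤ 3 / 2 * a) (f : Tor d M → ℝ) :
    ∑ x, ((TM z V *ᵥ f) x) ^ 2 ≤ (1 - 1 / (12 * d * a)) * ∑ x, f x ^ 2 := by
  have hd1 : (1 : ℝ) ≤ d := by exact_mod_cast hd
  refine (TM_sq_le hd hz hV hA f).trans ?_
  rw [TM_form]
  have h := AM_form_ge hA hD f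
  have h2 : 1 / (8 * (d : ℝ)) * (1 / (3 / 2 * a) * ∑ x, f x ^ 2) ≤
      1 / (8 * (d : ℝ)) * ∑ x, f x * (AM z V *ᵥ f) x :=
    mul_le_mul_of_nonneg_left h (by positivity)
  have h3 : 1 / (8 * (d : ℝ)) * (1 / (3 / 2 * a) * ∑ x, f x ^ 2) =
      1 / (12 * d * a) * ∑ x, f x ^ 2 := by
    field_simp
    ring
  rw [h3] at h2
  linarith

/-- the row of the power -/
theorem row_succ (z : ℝ) (V : Tor d M → ℝ) (x : Tor d M) (n : ℕ) (y : Tor d M) :
    (TM z V ^ (n + 1)) x y = (TM z V *ᵥ fun w => (TM z V ^ n) x w) y := by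
  rw [pow_succ, Matrix.mul_apply, Matrix.mulVec, dotProduct]
  refine Finset.sum_congr rfl fun w _ => ?_
  rw [TM_symm z V w y, mul_comm]

theorem row_nonneg (hd : 1 ≤ d) {z : ℝ} {V : Tor d M → ℝ} (hz : z ≤ 2 * d + 1)
    (hV : ∀ x, -1 ≤ V x) (x : Tor d M) (n : ℕ) (y : Tor d M) : 0 ≤ (TM z V ^ n) x y := by
  induction n generalizing y with
  | zero =>
      rw [pow_zero, Matrix.one_apply]
      split_ifs <;> norm_num
  | succ n ih =>
      rw [pow_succ, Matrix.mul_apply]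
      exact Finset.sum_nonneg fun w _ => mul_nonneg (ih w) (TM_nonneg hd hz hV w y)

theorem row_sum (hd : 1 ≤ d) {z : ℝ} {V : Tor d M → ℝ} (hz : z ≤ 2 * d + 1)
    (hV : ∀ x, -1 ≤ V x) (hA : (AM z V).PosDef) (x : Tor d M) (n : ℕ) :
    ∑ y, (TM z V ^ n) x y * DD z V y ≤ DD z V x := by
  have hd1 : (1 : ℝ) ≤ d := by exact_mod_cast hd
  induction n with
  | zero =>
      rw [pow_zero]
      refine le_of_eq ?_
      simp [Matrix.one_apply]
  | succ n ih =>
      refine le_trans ?_ ih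
      have e1 : ∑ y, (TM z V ^ (n + 1)) x y * DD z V y =
          ∑ y, (TM z V ^ n) x y * (TM z V *ᵥ DD z V) y := by
        rw [sum_mul_mulVec_comm (TM_symm z V)]
        exact Finset.sum_congr rfl fun y _ => by rw [row_succ]
      rw [e1]
      refine Finset.sum_le_sum fun y _ => ?_
      refine mul_le_mul_of_nonneg_left ?_ (row_nonneg hd hz hV x n y)
      rw [TM_mulVec, AM_DD hA, Pi.one_apply, mul_one]
      have : 0 ≤ 1 / (8 * (d : ℝ)) := by positivity
      linarith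

/-- Module HEAT. -/
theorem heat (hnash : NashStmt) (hseq : SeqStmt) : HeatStmt := by
  intro d M _ hd z V a hz hV hA ha hDa hDb
  have hd1 : (1 : ℝ) ≤ d := by exact_mod_cast hd
  have hmono : ∀ (x : Tor d M) (n : ℕ),
      ∑ y, ((TM z V ^ (n + 1)) x y) ^ 2 ≤ ∑ y, ((TM z V ^ n) x y) ^ 2 := by
    intro x n
    have e1 : ∑ y, ((TM z V ^ (n + 1)) x y) ^ 2 =
        ∑ y, (TM z V *ᵥ fun w => (TM z V ^ n) x w) y ^ 2 :=
      Finset.sum_congr rfl fun y _ => by rw [row_succ]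
    rw [e1]
    exact (TM_sq_le hd hz hV hA _).trans (TM_form_le hd hA _)
  refine ⟨TM_nonneg hd hz hV, hmono, ?_, TM_contr hd hz hV hA ha hDb,
    TM_form_nonneg hd hz hV, TM_form_le hd hA⟩
  intro x
  refine hseq d M hd (fun n => ∑ y, ((TM z V ^ n) x y) ^ 2)
    (fun n => Finset.sum_nonneg fun y _ => sq_nonneg _) ?_ (fun n => hmono x n) ?_
  · simp [Matrix.one_apply]
  · intro n l hl1 hlM
    set f : Tor d M → ℝ := fun w => (TM z V ^ n) x w with hf
    set g : Tor d M → ℝ := DD z V with hg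
    have hg0 : ∀ y, 0 < g y := DD_pos hA
    have hf0 : ∀ y, 0 ≤ f y := fun y => row_nonneg hd hz hV x n y
    have e1 : ∑ y, ((TM z V ^ (n + 1)) x y) ^ 2 = ∑ y, (TM z V *ᵥ f) y ^ 2 :=
      Finset.sum_congr rfl fun y _ => by rw [row_succ]
    have h1 := TM_sq_le hd hz hV hA f
    rw [TM_form] at h1
    -- the transformed function
    set u : Tor d M → ℝ := fun y => f y / g y with hu
    have hdoob := AM_doob z V g u
    have e : (fun y => g y * u y) = f := by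
      funext y; rw [hu]; exact mul_div_cancel₀ _ (hg0 y).ne'
    have e' : ∀ y, g y * u y = f y := fun y => congrFun e y
    simp only [e'] at hdoob
    have hAg : AM z V *ᵥ g = 1 := AM_DD hA
    have h2 : a ^ 2 * energy u ≤ ∑ y, f y * (AM z V *ᵥ f) y := by
      have hen : a ^ 2 * energy u ≤
          ∑ x, ∑ i : Fin d, g x * g (x + ev i) * (u (x + ev i) - u x) ^ 2 := by
        unfold energy
        rw [Finset.mul_sum]
        refine Finset.sum_le_sum fun y _ => ?_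
        rw [Finset.mul_sum]
        refine Finset.sum_le_sum fun i _ => ?_
        refine mul_le_mul_of_nonneg_right ?_ (sq_nonneg _)
        have h3 := hDa y
        have h4 := hDa (y + ev i)
        rw [sq]
        exact mul_le_mul h3 h4 ha.le (ha.le.trans h3)
      have hnn : 0 ≤ ∑ y, g y * (AM z V *ᵥ g) y * u y ^ 2 := by
        rw [hAg]
        refine Finset.sum_nonneg fun y _ => ?_
        have := (hg0 y).le
        simp only [Pi.one_apply, mul_one]
        positivity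
      linarith
    -- the sums
    have hsum : ∑ y, f y ≤ 3 / 2 := by
      have h3 := row_sum hd hz hV hA x n
      have h4 : a * ∑ y, f y ≤ ∑ y, (TM z V ^ n) x y * DD z V y := by
        rw [Finset.mul_sum]
        refine Finset.sum_le_sum fun y _ => ?_
        have := mul_le_mul_of_nonneg_left (hDa y) (hf0 y)
        calc a * f y = f y * a := mul_comm _ _
          _ ≤ f y * DD z V y := this
      have h5 := hDb x
      have h6 : a * ∑ y, f y ≤ a * (3 / 2) := by linarith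
      exact le_of_mul_le_mul_left h6 ha
    have hsum0 : 0 ≤ ∑ y, f y := Finset.sum_nonneg fun y _ => hf0 y
    have hu1 : ∑ y, |u y| ≤ 3 / (2 * a) := by
      have h3 : ∑ y, |u y| ≤ (∑ y, f y) / a := by
        rw [Finset.sum_div]
        refine Finset.sum_le_sum fun y _ => ?_
        rw [hu]
        simp only
        rw [abs_of_nonneg (div_nonneg (hf0 y) (hg0 y).le)]
        exact div_le_div_of_nonneg_left (hf0 y) ha (hDa y)
      refine h3.trans ?_
      rw [div_le_div_iff₀ ha (by positivity)]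
      nlinarith
    have hu1' : (∑ y, |u y|) ^ 2 ≤ (3 / (2 * a)) ^ 2 :=
      pow_le_pow_left₀ (Finset.sum_nonneg fun y _ => abs_nonneg _) hu1 2
    have hu2 : 4 / (9 * a ^ 2) * ∑ y, f y ^ 2 ≤ ∑ y, u y ^ 2 := by
      rw [Finset.mul_sum]
      refine Finset.sum_le_sum fun y _ => ?_
      rw [hu]
      simp only
      rw [div_pow]
      have h3 : g y ^ 2 ≤ (3 / 2 * a) ^ 2 := pow_le_pow_left₀ (hg0 y).le (hDb y) 2
      have h4 : 0 < g y ^ 2 := by have := hg0 y; positivity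
      calc 4 / (9 * a ^ 2) * f y ^ 2 = f y ^ 2 / (3 / 2 * a) ^ 2 := by
            field_simp
            ring
        _ ≤ f y ^ 2 / g y ^ 2 := div_le_div_of_nonneg_left (sq_nonneg _) h4 h3
    have hN := hnash d M u l hl1 hlM
    -- assembly
    have hl0 : (0 : ℝ) < l := by exact_mod_cast hl1
    set P : ℝ := ∑ y, f y ^ 2 with hP
    set L : ℝ := 1 / (l : ℝ) ^ d with hL
    have hL0 : 0 < L := by positivity
    have h7 : 4 / (9 * a ^ 2) * P ≤ L * (3 / (2 * a)) ^ 2 + (d * (l : ℝ) ^ 2 / 2) * energy u := by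
      have := mul_le_mul_of_nonneg_left hu1' hL0.le
      linarith
    -- multiply by `a²`
    have h8 : 4 / 9 * P ≤ L * (9 / 4) + (d * (l : ℝ) ^ 2 / 2) * (a ^ 2 * energy u) := by
      have h9 := mul_le_mul_of_nonneg_left h7 (by positivity : 0 ≤ a ^ 2)
      have e3 : a ^ 2 * (4 / (9 * a ^ 2) * P) = 4 / 9 * P := by field_simp
      have e4 : a ^ 2 * (L * (3 / (2 * a)) ^ 2 + (d * (l : ℝ) ^ 2 / 2) * energy u) =
          L * (9 / 4) + (d * (l : ℝ) ^ 2 / 2) * (a ^ 2 * energy u) := by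
        field_simp
        ring
      rw [e3, e4] at h9
      exact h9
    have h10 : (d * (l : ℝ) ^ 2 / 2) * (a ^ 2 * energy u) ≤
        (d * (l : ℝ) ^ 2 / 2) * ∑ y, f y * (AM z V *ᵥ f) y :=
      mul_le_mul_of_nonneg_left h2 (by positivity)
    set Q : ℝ := ∑ y, f y * (AM z V *ᵥ f) y with hQ
    have h11 : 4 / 9 * P - L * (9 / 4) ≤ (d * (l : ℝ) ^ 2 / 2) * Q := by linarith
    have h12 : 1 / (4 * (d : ℝ) ^ 2 * (l : ℝ) ^ 2) * (4 / 9 * P - L * (9 / 4)) ≤
        1 / (8 * d) * Q := by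
      have h13 := mul_le_mul_of_nonneg_left h11
        (by positivity : 0 ≤ 1 / (4 * (d : ℝ) ^ 2 * (l : ℝ) ^ 2))
      have e5 : 1 / (4 * (d : ℝ) ^ 2 * (l : ℝ) ^ 2) * ((d * (l : ℝ) ^ 2 / 2) * Q) =
          1 / (8 * d) * Q := by
        field_simp
        ring
      rw [e5] at h13
      exact h13
    have h14 : 1 / (9 * (d : ℝ) ^ 2 * (l : ℝ) ^ 2) * (P - 6 / (l : ℝ) ^ d) ≤
        1 / (4 * (d : ℝ) ^ 2 * (l : ℝ) ^ 2) * (4 / 9 * P - L * (9 / 4)) := by
      have e6 : 1 / (9 * (d : ℝ) ^ 2 * (l : ℝ) ^ 2) =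
          1 / (4 * (d : ℝ) ^ 2 * (l : ℝ) ^ 2) * (4 / 9) := by
        field_simp
      rw [e6, mul_assoc]
      refine mul_le_mul_of_nonneg_left ?_ (by positivity)
      have e7 : 6 / (l : ℝ) ^ d = 6 * L := by rw [hL]; ring
      rw [e7]
      nlinarith
    have h15 : ∑ y, (TM z V *ᵥ f) y ^ 2 ≤
        P - 1 / (9 * (d : ℝ) ^ 2 * (l : ℝ) ^ 2) * (P - 6 / (l : ℝ) ^ d) := by linarith
    exact e1.le.trans h15

end Pool.Agent.BED.H32
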