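import Pool.Agent.BED.Stmts

set_option autoImplicit false

/-!
# Squad BED (MP_be01ff_an), row PSK: products of invariant functions
-/

namespace Pool.Agent.BED.H32

open Set Filter Topology MeasureTheory
open Pool.Agent.BE01 Pool.Agent.BED

theorem mp_mu {d : ℕ} {Ω : Set (En d)} (hΩ : Dom Ω) (g : En d ≃ₗᵢ[ℝ] En d)
    (hg : ∀ x, g x ∈ Ω ↔ x ∈ Ω) : MeasurePreserving g (mu Ω) (mu Ω) := by
  have h1 : MeasurePreserving g (volume : Measure (En d)) volume := g.measurePreserving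
  have h2 := h1.restrict_preimage hΩ.1.measurableSet
  have h3 : g ⁻¹' Ω = Ω := by
    ext x
    exact hg x
  rw [h3] at h2
  exact h2

theorem psk : PskStmt := by
  intro d Ω G X _ _ A K hΩ hG hP hcl hK
  obtain ⟨-, -, -, h1, hj, hmH, hB⟩ := hP
  have comp : ∀ g ∈ G, ∀ f f' : En d → ℝ, f =ᵐ[mu Ω] f' →
      (fun x => f (g x)) =ᵐ[mu Ω] fun x => f' (g x) := by
    intro g hg f f' h
    exact (mp_mu hΩ g (hG g hg)).quasiMeasurePreserving.ae_eq_comp h
  refine ⟨hcl, ?_, ?_, ?_⟩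
  · rw [hK]
    intro g hg
    exact (comp g hg _ _ h1).trans h1.symm
  · intro x h hx hh
    rw [hK] at hx hh ⊢
    intro g hg
    have e1 := comp g hg _ _ (hmH x h)
    refine e1.trans (EventuallyEq.trans ?_ (hmH x h).symm)
    exact (hx g hg).mul (hh g hg)
  · intro y y' hy hy'
    rw [hK] at hy hy' ⊢
    intro g hg
    have e1 := comp g hg _ _ (hB y y')
    refine e1.trans (EventuallyEq.trans ?_ (hB y y').symm)
    have e2 : (fun x => y (g x)) =ᵐ[mu Ω] y :=
      ((comp g hg _ _ (hj y)).symm.trans (hy g hg)).trans (hj y)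
    have e3 : (fun x => y' (g x)) =ᵐ[mu Ω] y' :=
      ((comp g hg _ _ (hj y')).symm.trans (hy' g hg)).trans (hj y')
    exact e2.mul e3

end Pool.Agent.BED.H32
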